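import Pool.Agent.W544.PG.Defs4
import Pool.Agent.W557.PG.Ahl

/-!
# PG-AH2: `S_so2 → S_ah2`
-/

set_option autoImplicit false
set_option linter.all false

open Matrix Finset Module

namespace Pool.Agent.W918.PG

open Pool.Agent.W544.PG Pool.Agent.W557.PG

noncomputable section

variable {n r : ℕ}

/-- colour projection -/
def cd (c : Fin n → Fin r) (i : Fin r) : Matrix (Fin n) (Fin n) ℂ :=
  Matrix.diagonal fun a => if c a = i then 1 else 0

theorem bd_iff (c : Fin n → Fin r) (A : Matrix (Fin n) (Fin n) ℂ) :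
    BD c A ↔ ∀ i, cd c i * A = A * cd c i := by
  constructor
  · intro h i
    ext a b
    unfold cd
    rw [Matrix.diagonal_mul, Matrix.mul_diagonal]
    by_cases hab : c a = c b
    · rw [hab, mul_comm]
    · rw [h a b hab]
      simp
  · intro h a b hab
    have h1 := congrFun (congrFun (h (c a)) a) b
    unfold cd at h1
    rw [Matrix.diagonal_mul, Matrix.mul_diagonal, if_pos rfl, if_neg (fun h => hab h.symm), one_mul, mul_zero] at h1
    exact h1

theorem bd_one (c : Fin n → Fin r) : BD c (1 : Matrix (Fin n) (Fin n) ℂ) := by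
  intro a b hab
  apply Matrix.one_apply_ne
  rintro rfl
  exact hab rfl

theorem bd_mul {c : Fin n → Fin r} {A B : Matrix (Fin n) (Fin n) ℂ} (hA : BD c A) (hB : BD c B) :
    BD c (A * B) := by
  rw [bd_iff] at hA hB ⊢
  intro i
  rw [← mul_assoc, hA i, mul_assoc, hB i, mul_assoc]

theorem bd_inv {c : Fin n → Fin r} {A : Matrix (Fin n) (Fin n) ℂ} (hA : BD c A) (hu : IsUnit A.det) :
    BD c A⁻¹ := by
  rw [bd_iff] at hA ⊢
  intro i
  have h1 : A⁻¹ * A = 1 := Matrix.nonsing_inv_mul _ hu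
  have h2 : A * A⁻¹ = 1 := Matrix.mul_nonsing_inv _ hu
  calc cd c i * A⁻¹ = A⁻¹ * A * cd c i * A⁻¹ := by rw [h1, one_mul]
    _ = A⁻¹ * (A * cd c i) * A⁻¹ := by simp only [mul_assoc]
    _ = A⁻¹ * (cd c i * A) * A⁻¹ := by rw [hA i]
    _ = A⁻¹ * cd c i * (A * A⁻¹) := by simp only [mul_assoc]
    _ = A⁻¹ * cd c i := by rw [h2, mul_one]

theorem bl_eq {c : Fin n → Fin r} {A : Matrix (Fin n) (Fin n) ℂ} (hA : BD c A) (i : Fin r) :
    bl c i A = cd c i * A + (1 - cd c i) := by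
  ext a b
  unfold bl cd
  rw [Matrix.add_apply, Matrix.sub_apply, Matrix.diagonal_mul, Matrix.of_apply, Matrix.diagonal_apply, Matrix.one_apply]
  by_cases ha : c a = i
  · by_cases hb : c b = i
    · simp [ha, hb]
    · have hab : c a ≠ c b := by rw [ha]; exact fun h => hb h.symm
      have hne : a ≠ b := fun h => hab (by rw [h])
      simp [ha, hb, hne, hA a b hab]
  · simp [ha]

theorem cd_sq (c : Fin n → Fin r) (i : Fin r) : cd c i * cd c i = cd c i := by
  unfold cd
  rw [Matrix.diagonal_mul_diagonal]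
  congr 1
  funext a
  split_ifs <;> simp

theorem bl_mul {c : Fin n → Fin r} {A B : Matrix (Fin n) (Fin n) ℂ} (hA : BD c A) (hB : BD c B) (i : Fin r) :
    bl c i (A * B) = bl c i A * bl c i B := by
  rw [bl_eq (bd_mul hA hB), bl_eq hA, bl_eq hB]
  have h1 := (bd_iff c A).1 hA i
  have h2 := cd_sq c i
  have e1 : cd c i * A * (cd c i * B) = cd c i * (A * B) := by
    calc cd c i * A * (cd c i * B) = cd c i * (A * cd c i) * B := by simp only [mul_assoc]
      _ = cd c i * (cd c i * A) * B := by rw [h1]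
      _ = (cd c i * cd c i) * (A * B) := by simp only [mul_assoc]
      _ = cd c i * (A * B) := by rw [h2]
  have e2 : cd c i * A * (1 - cd c i) = 0 := by
    rw [mul_sub, mul_one, mul_assoc, ← h1, ← mul_assoc, h2, sub_self]
  have e3 : (1 - cd c i) * (cd c i * B) = 0 := by
    rw [sub_mul, one_mul, ← mul_assoc, h2, sub_self]
  have e4 : (1 - cd c i) * (1 - cd c i) = 1 - cd c i := by
    rw [mul_sub, mul_one, sub_mul, one_mul, h2, sub_self, sub_zero]
  rw [add_mul, mul_add, mul_add, e1, e2, e3, e4]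
  simp

theorem bl_one (c : Fin n → Fin r) (i : Fin r) : bl c i (1 : Matrix (Fin n) (Fin n) ℂ) = 1 := by
  rw [bl_eq (bd_one c), mul_one]
  simp

theorem bl_map (c : Fin n → Fin r) (i : Fin r) (τ : ℂ ≃+* ℂ) (A : Matrix (Fin n) (Fin n) ℂ) :
    bl c i (A.map τ) = (bl c i A).map τ := by
  ext a b
  unfold bl
  simp only [Matrix.of_apply, Matrix.map_apply]
  split_ifs <;> simp

/-- orthonormal coordinates, any index type -/
theorem orthI {ι : Type} [Fintype ι] [DecidableEq ι] (M : Matrix ι ι ℂ) (hM : Mᵀ = M) (hd : M.det ≠ 0) :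
    ∃ g : Matrix ι ι ℂ, gᵀ * M * g = 1 := by
  let e : Fin (Fintype.card ι) ≃ ι := (Fintype.equivFin ι).symm
  obtain ⟨g, hg⟩ := orth (M.submatrix e e) (by rw [Matrix.transpose_submatrix, hM])
    (by rw [Matrix.det_submatrix_equiv_self]; exact hd)
  refine ⟨g.submatrix e.symm e.symm, ?_⟩
  have h1 : M = (M.submatrix e e).submatrix e.symm e.symm := by
    rw [Matrix.submatrix_submatrix]
    simp
  rw [h1, Matrix.transpose_submatrix, Matrix.submatrix_mul_equiv, Matrix.submatrix_mul_equiv, hg]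
  exact Matrix.submatrix_one_equiv _

/-- block-diagonal orthonormal coordinates -/
theorem orthBD (c : Fin n → Fin r) (M : Matrix (Fin n) (Fin n) ℂ) (hb : BD c M) (hM : Mᵀ = M) (hd : M.det ≠ 0) :
    ∃ g : Matrix (Fin n) (Fin n) ℂ, BD c g ∧ gᵀ * M * g = 1 := by
  let e : (Σ i : Fin r, {a // c a = i}) ≃ Fin n := Equiv.sigmaFiberEquiv c
  have he : ∀ x, e x = x.2.1 := fun x => rfl
  have hce : ∀ x, c (e x) = x.1 := fun x => x.2.2
  let Re : Matrix (Fin n) (Fin n) ℂ → ∀ i : Fin r, Matrix {a // c a = i} {a // c a = i} ℂ :=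
    fun M i => Matrix.of fun a b => M a.1 b.1
  have hRe : ∀ M : Matrix (Fin n) (Fin n) ℂ, BD c M → M.submatrix e e = Matrix.blockDiagonal' (Re M) := by
    intro M hb
    ext ⟨i, a⟩ ⟨j, b⟩
    rw [Matrix.submatrix_apply]
    by_cases hij : i = j
    · subst hij
      rw [Matrix.blockDiagonal'_apply_eq]
      rfl
    · rw [Matrix.blockDiagonal'_apply_ne _ _ _ hij]
      apply hb
      rw [hce, hce]
      exact hij
  let Mi : ∀ i : Fin r, Matrix {a // c a = i} {a // c a = i} ℂ := Re M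
  have hblk : M.submatrix e e = Matrix.blockDiagonal' Mi := hRe M hb
  have hu : IsUnit M.det := isUnit_iff_ne_zero.2 hd
  have hblk2 : (M⁻¹).submatrix e e = Matrix.blockDiagonal' (Re M⁻¹) := hRe _ (bd_inv hb hu)
  have hprod : Matrix.blockDiagonal' (fun i => Mi i * Re M⁻¹ i) = Matrix.blockDiagonal' (1 : ∀ i : Fin r, Matrix {a // c a = i} {a // c a = i} ℂ) := by
    rw [Matrix.blockDiagonal'_mul, ← hblk, ← hblk2, Matrix.submatrix_mul_equiv, Matrix.mul_nonsing_inv _ hu,
      Matrix.submatrix_one_equiv, Matrix.blockDiagonal'_one]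
  have hpi := Matrix.blockDiagonal'_injective hprod
  have hdi : ∀ i, (Mi i).det ≠ 0 := by
    intro i h
    have h1 : Mi i * Re M⁻¹ i = 1 := congrFun hpi i
    have h2 := congrArg Matrix.det h1
    rw [Matrix.det_mul, h, zero_mul, Matrix.det_one] at h2
    exact zero_ne_one h2
  have hsi : ∀ i, (Mi i)ᵀ = Mi i := by
    intro i
    ext a b
    exact congrFun (congrFun hM a.1) b.1
  choose gi hgi using fun i => orthI (Mi i) (hsi i) (hdi i)
  refine ⟨(Matrix.blockDiagonal' gi).submatrix e.symm e.symm, ?_, ?_⟩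
  · intro a b hab
    rw [Matrix.submatrix_apply]
    obtain ⟨x, rfl⟩ := e.surjective a
    obtain ⟨y, rfl⟩ := e.surjective b
    rw [hce, hce] at hab
    rw [Equiv.symm_apply_apply, Equiv.symm_apply_apply]
    obtain ⟨i, a⟩ := x
    obtain ⟨j, b⟩ := y
    exact Matrix.blockDiagonal'_apply_ne _ _ _ hab
  · have h1 : M = (Matrix.blockDiagonal' Mi).submatrix e.symm e.symm := by
      rw [← hblk, Matrix.submatrix_submatrix]
      simp
    rw [h1, Matrix.transpose_submatrix, Matrix.submatrix_mul_equiv, Matrix.submatrix_mul_equiv,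
      Matrix.blockDiagonal'_transpose, ← Matrix.blockDiagonal'_mul, ← Matrix.blockDiagonal'_mul]
    have h2 : (fun i => (gi i)ᵀ * Mi i * gi i) = fun i => 1 := by
      funext i
      exact hgi i
    have h3 : (Matrix.blockDiagonal' fun i => (gi i)ᵀ * Mi i * gi i) = 1 := by
      rw [h2]
      exact Matrix.blockDiagonal'_one
    rw [h3]
    exact Matrix.submatrix_one_equiv _

theorem ah2 (hso : S_so2) : S_ah2 := by
  intro n r k col Q Q' hQ hQ' hbQ hbQ' hd hd' P hbP hP hdet t ht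
  choose dc hc using hdet
  -- determinants
  have hdC : ∀ M : Matrix (Fin n) (Fin n) ℚ, (mC M).det = ((M.det : ℚ) : ℂ) := by
    intro M
    exact (RingHom.map_det (Rat.castHom ℂ) M).symm
  have hB : (mC Q).det ≠ 0 := by rw [hdC]; exact_mod_cast hd
  have hA : (mC Q').det ≠ 0 := by rw [hdC]; exact_mod_cast hd'
  have hPd : P.det ≠ 0 := by
    intro h
    apply hB
    rw [← hP, Matrix.det_mul, h, mul_zero]
  have hPu : IsUnit P.det := isUnit_iff_ne_zero.2 hPd
  have hP1 : P⁻¹ * P = 1 := Matrix.nonsing_inv_mul _ hPu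
  have hP2 : P * P⁻¹ = 1 := Matrix.mul_nonsing_inv _ hPu
  have hbPi : BD col P⁻¹ := bd_inv hbP hPu
  set s : (Fin k → Fin n) → ℂ := pull P⁻¹ (cx t) with hs
  have hPs : pull P s = cx t := by rw [hs, ← pull_mul, hP1, pull_one]
  have hkill : ∀ Z : Matrix (Fin n) (Fin n) ℂ, Zᵀ * mC Q' + mC Q' * Z = 0 → BD col Z → act Z s = 0 := by
    intro Z hZ hbZ
    rw [hs, act_pull P⁻¹ Z (P⁻¹ * Z * P) (by rw [mul_assoc, hP2, mul_one])]
    have h1 : (P⁻¹ * Z * P)ᵀ * mC Q + mC Q * (P⁻¹ * Z * P) = 0 := by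
      have h2 : P * (P⁻¹ * Z * P) = Z * P := by rw [← mul_assoc, ← mul_assoc, hP2, one_mul]
      calc (P⁻¹ * Z * P)ᵀ * mC Q + mC Q * (P⁻¹ * Z * P)
          = (P * (P⁻¹ * Z * P))ᵀ * mC Q' * P + Pᵀ * mC Q' * (P * (P⁻¹ * Z * P)) := by
            rw [← hP, Matrix.transpose_mul P]
            simp only [mul_assoc]
        _ = Pᵀ * (Zᵀ * mC Q' + mC Q' * Z) * P := by
            rw [h2, Matrix.transpose_mul]
            simp only [mul_assoc, mul_add, add_mul]
        _ = 0 := by rw [hZ, mul_zero, zero_mul]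
    have h3 : act (P⁻¹ * Z * P) (cx t) = 0 := by
      funext J
      exact ht _ h1 (bd_mul (bd_mul hbPi hbZ) hbP) J
    rw [h3]
    funext J
    simp [pull]
  -- invariance under `SO`
  have hbA : BD col (mC Q') := by
    intro a b hab
    show ((Q' a b : ℚ) : ℂ) = 0
    rw [hbQ' a b hab]
    simp
  obtain ⟨g, hbg, hg⟩ := orthBD col (mC Q') hbA (by
    have := congrArg mC hQ'
    rwa [show mC (Q'ᵀ) = (mC Q')ᵀ from rfl] at this) hA
  have hgd : g.det ≠ 0 := by
    intro h
    have := congrArg Matrix.det hg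
    rw [Matrix.det_mul, h, mul_zero, Matrix.det_one] at this
    exact zero_ne_one this
  have hgu : IsUnit g.det := isUnit_iff_ne_zero.2 hgd
  have hg1 : g⁻¹ * g = 1 := Matrix.nonsing_inv_mul _ hgu
  have hg2 : g * g⁻¹ = 1 := Matrix.mul_nonsing_inv _ hgu
  have hbgi : BD col g⁻¹ := bd_inv hbg hgu
  have hgA : gᵀ * mC Q' = g⁻¹ := by
    calc gᵀ * mC Q' = gᵀ * mC Q' * (g * g⁻¹) := by rw [hg2, mul_one]
      _ = gᵀ * mC Q' * g * g⁻¹ := by rw [← mul_assoc]
      _ = g⁻¹ := by rw [hg, one_mul]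
  have hAg : mC Q' * g = (g⁻¹)ᵀ := by
    rw [← hgA, Matrix.transpose_mul, Matrix.transpose_transpose]
    congr 1
    have := congrArg mC hQ'
    exact (show mC (Q'ᵀ) = (mC Q')ᵀ from rfl) ▸ this.symm
  have hinv : ∀ R : Matrix (Fin n) (Fin n) ℂ, BD col R → Rᵀ * mC Q' * R = mC Q' →
      (∀ i, (bl col i R).det = 1) → pull R s = s := by
    intro R hbR hR hRd
    have h1 := hso n r k col (pull g s) ?_ (g⁻¹ * R * g) ?_ (bd_mul (bd_mul hbgi hbR) hbg) ?_
    · rw [← pull_mul, ← mul_assoc, ← mul_assoc, hg2, one_mul, pull_mul] at h1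
      have e : ∀ x : (Fin k → Fin n) → ℂ, pull g⁻¹ (pull g x) = x := fun x => by
        rw [← pull_mul, hg2, pull_one]
      have h2 := congrArg (pull g⁻¹) h1
      rwa [e, e] at h2
    · intro Z hZ hbZ
      rw [act_pull g Z (g * Z * g⁻¹) (by rw [mul_assoc, hg1, mul_one])]
      rw [hkill (g * Z * g⁻¹) ?_ (bd_mul (bd_mul hbg hbZ) hbgi)]
      · funext J
        simp [pull]
      · calc (g * Z * g⁻¹)ᵀ * mC Q' + mC Q' * (g * Z * g⁻¹)
            = (g⁻¹)ᵀ * Zᵀ * (gᵀ * mC Q') + (mC Q' * g) * Z * g⁻¹ := by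
              rw [Matrix.transpose_mul, Matrix.transpose_mul]
              simp only [mul_assoc]
          _ = 0 := by
              rw [hgA, hAg, hZ]
              simp
    · calc (g⁻¹ * R * g)ᵀ * (g⁻¹ * R * g) = gᵀ * Rᵀ * ((g⁻¹)ᵀ * g⁻¹) * (R * g) := by
            rw [Matrix.transpose_mul, Matrix.transpose_mul]
            simp only [mul_assoc]
        _ = gᵀ * (Rᵀ * mC Q' * R) * g := by
            rw [← hAg, mul_assoc (mC Q'), hg2, mul_one]
            simp only [mul_assoc]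
        _ = 1 := by rw [hR, hg]
    · intro i
      rw [bl_mul (bd_mul hbgi hbR) hbg, bl_mul hbgi hbR, Matrix.det_mul, Matrix.det_mul, hRd, mul_one, mul_comm,
        ← Matrix.det_mul, ← bl_mul hbg hbgi, hg2, bl_one, Matrix.det_one]
  -- descent
  have hfix : ∀ (τ : ℂ ≃+* ℂ) (J : Fin k → Fin n), τ (s J) = s J := by
    intro τ J
    set Pt : Matrix (Fin n) (Fin n) ℂ := P.map τ with hPt
    have hq : ∀ q : ℚ, τ (q : ℂ) = (q : ℂ) := fun q => map_ratCast τ q
    have hmC : ∀ M : Matrix (Fin n) (Fin n) ℚ, (mC M).map τ = mC M := by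
      intro M
      ext a b
      simp [mC]
    have hmul : ∀ M N : Matrix (Fin n) (Fin n) ℂ, (M * N).map τ = M.map τ * N.map τ := by
      intro M N
      exact Matrix.map_mul (f := (τ : ℂ →+* ℂ))
    have hbPt : BD col Pt := by
      intro a b hab
      rw [hPt, Matrix.map_apply, hbP a b hab]
      simp
    have hPtQ : Ptᵀ * mC Q' * Pt = mC Q := by
      have h1 := congrArg (fun M : Matrix (Fin n) (Fin n) ℂ => M.map τ) hP
      simp only [hmul, hmC] at h1
      rwa [Matrix.transpose_map] at h1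
    have hPtb : ∀ i, (bl col i Pt).det = (bl col i P).det := by
      intro i
      have h1 : (bl col i Pt).det = τ (bl col i P).det := by
        rw [hPt, bl_map]
        exact (RingHom.map_det (τ : ℂ →+* ℂ) _).symm
      rw [h1, hc, hq]
    have hPtu : IsUnit Pt.det := by
      have h1 : Pt.det = τ P.det := (RingHom.map_det (τ : ℂ →+* ℂ) P).symm
      rw [h1]
      apply isUnit_iff_ne_zero.2
      intro h
      exact hPd ((map_eq_zero_iff τ τ.injective).1 h)
    have hPt1 : Pt⁻¹ * Pt = 1 := Matrix.nonsing_inv_mul _ hPtu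
    have hPt2 : Pt * Pt⁻¹ = 1 := Matrix.mul_nonsing_inv _ hPtu
    have hbPti : BD col Pt⁻¹ := bd_inv hbPt hPtu
    have hinvmap : (P⁻¹).map τ = Pt⁻¹ := by
      have h1 : (P⁻¹).map τ * Pt = 1 := by
        rw [hPt, ← hmul, hP1]
        ext a b
        by_cases h : a = b
        · subst h; simp
        · simp [Matrix.one_apply_ne h]
      calc (P⁻¹).map τ = (P⁻¹).map τ * (Pt * Pt⁻¹) := by rw [hPt2, mul_one]
        _ = Pt⁻¹ := by rw [← mul_assoc, h1, one_mul]
    have h1 : (fun J => (τ : ℂ →+* ℂ) (s J)) = pull (P * Pt⁻¹) s := by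
      have h2 : (fun J => (τ : ℂ →+* ℂ) (cx t J)) = cx t := by
        funext J
        exact hq (t J)
      have h3 : (P⁻¹).map (τ : ℂ →+* ℂ) = Pt⁻¹ := hinvmap
      rw [pull_mul, hPs, hs, pull_map (τ : ℂ →+* ℂ) P⁻¹ (cx t), h2, h3]
    have h4 : pull (P * Pt⁻¹) s = s := by
      apply hinv
      · exact bd_mul hbP hbPti
      · calc (P * Pt⁻¹)ᵀ * mC Q' * (P * Pt⁻¹) = (Pt⁻¹)ᵀ * (Pᵀ * mC Q' * P) * Pt⁻¹ := by
              rw [Matrix.transpose_mul]
              simp only [mul_assoc]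
          _ = (Pt⁻¹)ᵀ * (Ptᵀ * mC Q' * Pt) * Pt⁻¹ := by rw [hP, hPtQ]
          _ = (Pt * Pt⁻¹)ᵀ * mC Q' * (Pt * Pt⁻¹) := by
              rw [Matrix.transpose_mul]
              simp only [mul_assoc]
          _ = mC Q' := by rw [hPt2]; simp
      · intro i
        rw [bl_mul hbP hbPti, Matrix.det_mul, ← hPtb, ← Matrix.det_mul, ← bl_mul hbPt hbPti, hPt2, bl_one,
          Matrix.det_one]
    rw [h4] at h1
    exact congrFun h1 J
  have hrat : ∀ J, ∃ q : ℚ, (q : ℂ) = s J := fun J =>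
    Pool.Agent.W655.PG.rat_of_fixed fun τ => hfix τ J
  choose t' ht' using hrat
  have hcx : cx t' = s := by
    funext J
    exact ht' J
  refine ⟨t', fun Z hZ hbZ J => ?_, by rw [hcx, hPs]⟩
  have h1 := congrFun (hkill Z hZ hbZ) J
  rw [← hcx] at h1
  exact h1

end

end Pool.Agent.W918.PG
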